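import Pool.Agent.Lib.MP_563af5_gt.ArMain

namespace Pool.Agent.Results.MP_563af5_gt.Aronszajn

open Pool.Agent.Lib.MP_563af5_gt

/-- Let `X` be a first countable compactum with coordinates `g ξ` (`ξ` countable) and let the fibres
through the points `z γ` form a tree with countable levels in which the fibre of `z γ` at level `γ`
is not a point. Then a proper poset adds an uncountable right-separated sequence in `X`. -/
theorem result (X : Type) [TopologicalSpace X] [CompactSpace X] [T2Space X]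
    [FirstCountableTopology X] (g : W1 → C(X, ℝ)) (hg : ∀ x y, (∀ ξ, g ξ x = g ξ y) → x = y)
    (z : W1 → X) (hn : ∀ γ, (Fib g (z γ) γ).Nontrivial)
    (hc : ∀ α, (Set.range fun γ => Fib g (z γ) α).Countable) :
    ∃ (P : Type) (_ : Preorder P), Nonempty P ∧ Proper P ∧ ∃ a : P → Set (W1 × X × Set X),
      (∀ p q, q ≤ p → a p ⊆ a q) ∧
      (∀ p, ∀ s ∈ a p, IsOpen s.2.2 ∧ s.2.1 ∈ s.2.2 ∧ ∀ t ∈ a p, s.1 < t.1 → t.2.1 ∉ s.2.2) ∧
      ∀ β, IsDn {p | ∃ s ∈ a p, β ≤ s.1} :=
  kill_aron (exists_rank hg) hn hc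

end Pool.Agent.Results.MP_563af5_gt.Aronszajn
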