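import Pool.Agent.Lib.MP_563af5_gt.ArLC

namespace Pool.Agent.Results.MP_563af5_gt.Dissipated

open Pool.Agent.Lib.MP_563af5_gt

/-- Every perfectly normal, locally connected, weakly `𝔠`-dissipated compactum which is not
metrizable acquires an uncountable right-separated sequence after forcing with a proper poset. -/
theorem result (X : Type) [TopologicalSpace X] [CompactSpace X] [T2Space X]
    [PerfectlyNormalSpace X] [LocallyConnectedSpace X] (hd : Dissip X)
    (hm : ¬ TopologicalSpace.MetrizableSpace X) :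
    ∃ (P : Type) (_ : Preorder P), Nonempty P ∧ Proper P ∧ ∃ a : P → Set (W1 × X × Set X),
      (∀ p q, q ≤ p → a p ⊆ a q) ∧
      (∀ p, ∀ s ∈ a p, IsOpen s.2.2 ∧ s.2.1 ∈ s.2.2 ∧ ∀ t ∈ a p, s.1 < t.1 → t.2.1 ∉ s.2.2) ∧
      ∀ β, IsDn {p | ∃ s ∈ a p, β ≤ s.1} :=
  kill_lc hd hm

end Pool.Agent.Results.MP_563af5_gt.Dissipated
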