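import Pool.Agent.Lib.MP_563af5_gt.Main

set_option autoImplicit false

namespace Pool.Agent.Results.MP_563af5_gt.SocaTight

open Pool.Agent.Lib.MP_563af5_gt TopologicalSpace

/-- Assume SOCA. Let `X` be a perfectly normal compactum and `f` a continuous map of `X` to a
metrizable compactum. (a) Countably many continuous real functions split every fibre of `f` with
at least three points. (b) If `X` is locally connected and `f` is `𝔠`-tight, then all but
countably many fibres are totally disconnected, and `X` is metrizable if all fibres are. -/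
theorem result (soca : SOCA) (X M : Type) [TopologicalSpace X] [CompactSpace X] [T2Space X]
    [PerfectlyNormalSpace X] [TopologicalSpace M] [CompactSpace M] [MetrizableSpace M]
    (f : X → M) (hf : Continuous f) :
    (∃ g : X → ℕ → ℝ, Continuous g ∧
      ∀ y, 3 ≤ (f ⁻¹' {y}).encard → ∃ p q, f p = y ∧ f q = y ∧ g p ≠ g q) ∧
    (LocallyConnectedSpace X → CTight f →
      {y | ¬ IsTotallyDisconnected (f ⁻¹' {y})}.Countable ∧
        ((∀ y, MetrizableSpace (f ⁻¹' {y})) → MetrizableSpace X)) := by
  refine ⟨?_, fun _ ht => main soca hf ht⟩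
  have := hl (X := X)
  obtain ⟨g, g1, g2⟩ := splitting soca hf
  refine ⟨g, g1, fun y hy => ?_⟩
  obtain ⟨t, t1, t2⟩ := Set.exists_subset_encard_eq hy
  obtain ⟨a, b, c, h1, h2, h3, rfl⟩ := Set.encard_eq_three.1 t2
  have ha : f a = y := t1 (by simp)
  have hb : f b = y := t1 (by simp)
  have hc : f c = y := t1 (by simp)
  rw [← ha]
  refine g2 ![a, b, c] (fun i j h => ?_) fun i => ?_
  · fin_cases i <;> fin_cases j <;> simp_all [eq_comm]
  · fin_cases i <;> simp [ha, hb, hc]

end Pool.Agent.Results.MP_563af5_gt.SocaTight
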